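import Pool.Agent.Q167.NS.I

set_option autoImplicit false

/-!
# Families of forms and the effect of one error

`Step f h L a`: the value `f ω n` depends on the coordinates up to `n + L`, changing the coordinate
`k > (n + L) / 2` adds `cf ω n k` to it, and `cf ω (k + 2 t + a) k = h ω t`.
-/

namespace Pool.Agent.Q167.NT

open Finset MeasureTheory ProbabilityTheory Filter Topology
open Pool.Agent.Q167.NS (Dep avs Bits path Rate sg sg_add abs_sg)

/-- the effect of one error -/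
structure Step (f h : (ℕ → Bool) → ℕ → ZMod 2) (L a : ℕ) : Prop where
  ha : a ≤ 1
  depf : ∀ n, Dep (n + L + 1) (fun ω => f ω n)
  deph : ∀ n, Dep (n + L + 1) (fun ω => h ω n)
  flip : ∃ cf : (ℕ → Bool) → ℕ → ℕ → ZMod 2,
    (∀ n k m, n + L < 2 * m → m ≤ k → Dep m (fun ω => cf ω n k)) ∧
    (∀ ω k n, 1 ≤ k → n + L < 2 * k →
      f (Function.update ω k true) n = f (Function.update ω k false) n + cf ω n k) ∧
    (∀ ω k t, cf ω (k + 2 * t + a) k = h ω t)

/-- the number of nonzero values below `N` -/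
noncomputable def Y (f : (ℕ → Bool) → ℕ → ZMod 2) (N : ℕ) (ω : ℕ → Bool) : ℕ :=
  ((range N).filter fun t => f ω t ≠ 0).card

/-- the number of nonzero values in the window `[u, u + w)` -/
noncomputable def X (f : (ℕ → Bool) → ℕ → ZMod 2) (u w : ℕ) (ω : ℕ → Bool) : ℕ :=
  ((Ico u (u + w)).filter fun n => f ω n ≠ 0).card

variable {f h : (ℕ → Bool) → ℕ → ZMod 2} {L a : ℕ}

theorem dep_Y (hf : ∀ n, Dep (n + L + 1) (fun ω => f ω n)) (N : ℕ) : Dep (N + L) (Y f N) := by
  intro ω ω' hω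
  unfold Y
  congr 1
  refine Finset.filter_congr fun t ht => ?_
  rw [Finset.mem_range] at ht
  have h1 : f ω t = f ω' t := hf t ω ω' fun k hk => hω k (by omega)
  rw [h1]

theorem dep_X (hf : ∀ n, Dep (n + L + 1) (fun ω => f ω n)) (u w : ℕ) :
    Dep (u + w + L) (X f u w) := by
  intro ω ω' hω
  unfold X
  congr 1
  refine Finset.filter_congr fun t ht => ?_
  rw [Finset.mem_Ico] at ht
  have h1 : f ω t = f ω' t := hf t ω ω' fun k hk => hω k (by omega)
  rw [h1]

theorem X_flip (hs : Step f h L a) (ω : ℕ → Bool) (u H k : ℕ) (hk : u ≤ k) (hk' : k < u + H)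
    (hu : H + L + 1 ≤ u) :
    Y h ((H + 1) / 2) ω ≤ X f u (2 * H) (Function.update ω k true) +
      X f u (2 * H) (Function.update ω k false) := by
  classical
  obtain ⟨cf, hcf1, hcf2, hcf3⟩ := hs.flip
  have ha := hs.ha
  unfold Y X
  refine le_trans ?_ (Finset.card_union_le _ _)
  refine Finset.card_le_card_of_injOn (fun t => k + 2 * t + a) ?_ ?_
  · intro t ht
    obtain ⟨h1, h2⟩ := Finset.mem_filter.1 (Finset.mem_coe.1 ht)
    rw [Finset.mem_range] at h1
    have h3 := hcf2 ω k (k + 2 * t + a) (by omega) (by omega)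
    rw [hcf3] at h3
    refine Finset.mem_coe.2 (Finset.mem_union.2 ?_)
    change k + 2 * t + a ∈ _ ∨ k + 2 * t + a ∈ _
    by_cases h4 : f (Function.update ω k true) (k + 2 * t + a) = 0
    · right
      refine Finset.mem_filter.2 ⟨Finset.mem_Ico.2 ⟨by omega, by omega⟩, fun h5 => h2 ?_⟩
      rw [h4, h5, zero_add] at h3
      exact h3.symm
    · left
      exact Finset.mem_filter.2 ⟨Finset.mem_Ico.2 ⟨by omega, by omega⟩, h4⟩
  · intro a _ b _ hab
    simp only at hab
    omega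

theorem sum_X_le (f : (ℕ → Bool) → ℕ → ZMod 2) (ω : ℕ → Bool) (M Λ w B N : ℕ) (hw : w ≤ Λ)
    (hN : M + B * Λ ≤ N) : ∑ b ∈ range B, X f (M + b * Λ) w ω ≤ Y f N ω := by
  classical
  unfold X Y
  rw [← Finset.card_biUnion]
  · refine Finset.card_le_card fun n hn => ?_
    obtain ⟨b, hb, hn'⟩ := Finset.mem_biUnion.1 hn
    obtain ⟨h1, h2⟩ := Finset.mem_filter.1 hn'
    rw [Finset.mem_Ico] at h1
    rw [Finset.mem_range] at hb
    refine Finset.mem_filter.2 ⟨Finset.mem_range.2 ?_, h2⟩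
    have : (b + 1) * Λ ≤ B * Λ := Nat.mul_le_mul_right _ hb
    have e : (b + 1) * Λ = b * Λ + Λ := by ring
    omega
  · intro a _ b _ hab
    have key : ∀ a b : ℕ, a < b → Disjoint
        ((Ico (M + a * Λ) (M + a * Λ + w)).filter fun n => f ω n ≠ 0)
        ((Ico (M + b * Λ) (M + b * Λ + w)).filter fun n => f ω n ≠ 0) := by
      intro a b hab
      rw [Finset.disjoint_left]
      intro n h1 h2
      have h3 := Finset.mem_Ico.1 (Finset.mem_filter.1 h1).1
      have h4 := Finset.mem_Ico.1 (Finset.mem_filter.1 h2).1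
      have : (a + 1) * Λ ≤ b * Λ := Nat.mul_le_mul_right _ hab
      have e : (a + 1) * Λ = a * Λ + Λ := by ring
      omega
    rcases lt_or_gt_of_ne hab with h | h
    · exact key a b h
    · exact (key b a h).symm

/-- the probability of a good block -/
theorem good_block {p : ℕ → ℝ} (hs : Step f h L a) (hp0 : ∀ k, 0 ≤ p k)
    (hp1 : ∀ k, p k ≤ 1) (u H Λ : ℕ)
    (hΛ : H ≤ Λ) (hu : H + L + 1 ≤ u) (β : ℝ) (hβ0 : 0 ≤ β)
    (hβ : ∀ k, u ≤ k → k < u + H → β ≤ 2 * p k ∧ β ≤ 2 * (1 - p k)) (ω : ℕ → Bool) :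
    (1 - Real.exp (-(β * H))) / 2 ≤ avs p u Λ (fun ω' =>
      if Y h ((H + 1) / 2) ω' ≤ 2 * X f u (2 * H) ω' then (1 : ℝ) else 0) ω := by
  classical
  set b : ℕ → ℝ := fun k => if u ≤ k ∧ k < u + H then β else 0 with hb
  have h1 := NS.flip_lower hp0 hp1 u Λ (fun ω' =>
      if Y h ((H + 1) / 2) ω' ≤ 2 * X f u (2 * H) ω' then (1 : ℝ) else 0)
    (fun ω' => by split_ifs <;> norm_num) b
    (fun k => by simp only [hb]; split_ifs <;> linarith)
    (fun k => by
      simp only [hb]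
      split_ifs with h
      · exact (hβ k h.1 h.2).1
      · linarith [hp0 k])
    (fun k => by
      simp only [hb]
      split_ifs with h
      · exact (hβ k h.1 h.2).2
      · linarith [hp1 k]) ?_ ω
  · refine le_trans ?_ h1
    have h2 : ∏ i ∈ range Λ, (1 - b (u + i)) ≤ Real.exp (-(β * H)) := by
      have h3 : ∏ i ∈ range Λ, (1 - b (u + i)) ≤ ∏ i ∈ range Λ, Real.exp (-(b (u + i))) := by
        refine Finset.prod_le_prod (fun i _ => ?_) fun i _ => ?_
        · simp only [hb]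
          split_ifs with h
          · have := hβ _ h.1 h.2
            linarith
          · norm_num
        · have := Real.add_one_le_exp (-(b (u + i)))
          linarith
      refine h3.trans (le_of_eq ?_)
      rw [← Real.exp_sum]
      congr 1
      rw [Finset.sum_neg_distrib]
      congr 1
      have h4 : ∀ i ∈ range Λ, b (u + i) = if i < H then β else 0 := by
        intro i _
        simp only [hb]
        by_cases hi : i < H
        · rw [if_pos hi, if_pos ⟨by omega, by omega⟩]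
        · rw [if_neg hi, if_neg (by omega)]
      rw [Finset.sum_congr rfl h4, ← Finset.sum_filter]
      have h5 : (range Λ).filter (fun i => i < H) = range H := by
        ext i
        simp only [Finset.mem_filter, Finset.mem_range]
        omega
      rw [h5, Finset.sum_const, Finset.card_range, nsmul_eq_mul, mul_comm]
    linarith
  · intro k hk ω'
    have hk2 : u ≤ k ∧ k < u + H := by
      by_contra h
      exact hk (by simp only [hb]; rw [if_neg h])
    have h3 := X_flip hs ω' u H k hk2.1 hk2.2 hu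
    have h4 : ∀ e : Bool, Y h ((H + 1) / 2) (Function.update ω' k e) =
        Y h ((H + 1) / 2) ω' := fun e =>
      (dep_Y hs.deph ((H + 1) / 2)).update (by omega) ω' e
    rw [h4, h4]
    by_cases ha : Y h ((H + 1) / 2) ω' ≤ 2 * X f u (2 * H) (Function.update ω' k true)
    · rw [if_pos ha]
      split_ifs <;> norm_num
    · rw [if_neg ha, if_pos (by omega)]
      norm_num


variable {Ω : Type} [MeasurableSpace Ω] {P : Measure Ω} [IsProbabilityMeasure P]
  {ξ : ℕ → Ω → Bool} {p : ℕ → ℝ}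

/-- at least `c N ^ x` nonzero values below `N`, up to probability `O(N ^ (-A))` for all `A` -/
def GP (P : Measure Ω) (ξ : ℕ → Ω → Bool) (f : (ℕ → Bool) → ℕ → ZMod 2) (x : ℝ) :
    Prop :=
  ∃ c : ℝ, 0 < c ∧ ∀ A : ℕ, ∃ C : ℝ, 0 ≤ C ∧ ∀ N : ℕ, 1 ≤ N →
    P.real {ω | (Y f N (path ξ ω) : ℝ) < c * (N : ℝ) ^ x} ≤ C / (N : ℝ) ^ A

omit [IsProbabilityMeasure P] in
theorem GP.mono [IsFiniteMeasure P] {x y : ℝ} (h : GP P ξ f x) (hy : y ≤ x) :
    GP P ξ f y := by
  obtain ⟨c, hc, h⟩ := h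
  refine ⟨c, hc, fun A => ?_⟩
  obtain ⟨C, hC0, hC⟩ := h A
  refine ⟨C, hC0, fun N hN => le_trans (measureReal_mono fun ω hω => ?_) (hC N hN)⟩
  change (Y f N (path ξ ω) : ℝ) < c * (N : ℝ) ^ y at hω
  change (Y f N (path ξ ω) : ℝ) < c * (N : ℝ) ^ x
  have h1 : (1 : ℝ) ≤ N := by exact_mod_cast hN
  have h2 := Real.rpow_le_rpow_of_exponent_le h1 hy
  have h3 := mul_le_mul_of_nonneg_left h2 hc.le
  linarith

theorem recursion (hξ : Bits P ξ p) (hs : Step f h L a) {c₀ θ : ℝ}
    (hc₀ : 0 < c₀) (hθ : 0 < θ) (hθ1 : θ < 1) (hp : Rate c₀ θ p) (x : ℝ)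
    (hx0 : 0 ≤ x) (hx1 : x ≤ 1) (hgp : GP P ξ h x) : GP P ξ f (1 - θ + θ * x) := by
  obtain ⟨cT, hcT, hT⟩ := hgp
  set c1 : ℝ := (1 - Real.exp (-(2 * c₀))) / 2 with hc1
  have hc1' : 0 < c1 ∧ c1 ≤ 1 := by
    have h1 : Real.exp (-(2 * c₀)) < 1 := by
      rw [← Real.exp_zero]
      exact Real.exp_lt_exp.2 (by linarith)
    have h2 := Real.exp_pos (-(2 * c₀))
    constructor <;> simp only [hc1] <;> linarith
  set K : ℝ := (L : ℝ) + 5 with hK
  have hK0 : 5 ≤ K := by
    have : (0 : ℝ) ≤ L := Nat.cast_nonneg _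
    linarith
  set c : ℝ := c1 * cT / (32 * K) with hc
  have hc0 : 0 < c := by
    have := hc1'.1
    positivity
  refine ⟨c, hc0, fun A => ?_⟩
  obtain ⟨A', hA'⟩ := exists_nat_ge ((A : ℝ) / θ)
  obtain ⟨C1, hC10, hC1⟩ := hT A'
  obtain ⟨C2, hC20, hC2⟩ := NS.exp_small (c1 / (28 * K)) (1 - θ) (by
    have := hc1'.1
    positivity) (by linarith) A
  -- large `N`
  have hev : ∀ᶠ N : ℕ in atTop, 16 * K ≤ (N : ℝ) ^ (1 - θ) := by
    have := (tendsto_rpow_atTop (by linarith : 0 < 1 - θ)).comp tendsto_natCast_atTop_atTop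
    exact this.eventually_ge_atTop _
  obtain ⟨N0, hN0⟩ := eventually_atTop.1 hev
  refine ⟨C1 * 2 ^ A' + C2 + (N0 : ℝ) ^ A, by positivity, fun N hN => ?_⟩
  have hN1 : (1 : ℝ) ≤ N := by exact_mod_cast hN
  have hNp : (0 : ℝ) < N := by linarith
  have hNA : (0 : ℝ) < (N : ℝ) ^ A := by positivity
  by_cases hlt : N < N0
  · refine (measureReal_le_one).trans ?_
    rw [le_div_iff₀ hNA, one_mul]
    have : (N : ℝ) ^ A ≤ (N0 : ℝ) ^ A := by
      refine pow_le_pow_left₀ hNp.le ?_ A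
      exact_mod_cast hlt.le
    have h3 : 0 ≤ C1 * 2 ^ A' := by positivity
    linarith
  have hW := hN0 N (not_lt.1 hlt)
  -- parameters
  set z : ℝ := (N : ℝ) ^ θ with hz
  have hz1 : 1 ≤ z := Real.one_le_rpow hN1 hθ.le
  have hzN : z * (N : ℝ) ^ (1 - θ) = N := by
    rw [hz, ← Real.rpow_add hNp, show θ + (1 - θ) = 1 by ring, Real.rpow_one]
  set W : ℝ := (N : ℝ) ^ (1 - θ) with hWdef
  set H : ℕ := ⌈z⌉₊ with hH
  have hH1 : z ≤ H := Nat.le_ceil z
  have hH2 : (H : ℝ) < z + 1 := Nat.ceil_lt_add_one (by linarith)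
  have hH2' : (H : ℝ) ≤ 2 * z := by linarith
  set Λ : ℕ := 2 * H + L + 1 with hΛ
  have hΛr : (Λ : ℝ) ≤ K * z := by
    have h1 : (Λ : ℝ) = 2 * H + L + 1 := by
      rw [hΛ]
      push_cast
      ring
    have h2 : (0 : ℝ) ≤ L := Nat.cast_nonneg _
    have h3 : (L : ℝ) ≤ L * z := le_mul_of_one_le_right h2 hz1
    rw [h1, hK]
    nlinarith
  have hΛ0 : 0 < Λ := by omega
  set M : ℕ := (N + 1) / 2 with hM
  set B : ℕ := (N / 2) / Λ with hB
  have hMB : M + B * Λ ≤ N := by
    have : B * Λ ≤ N / 2 := Nat.div_mul_le_self _ _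
    omega
  have hNge : 16 * K * z ≤ N := by
    rw [← hzN]
    nlinarith
  have hMH : H + L + 1 ≤ M := by
    have h1 : ((H + L + 1 : ℕ) : ℝ) ≤ (N : ℝ) / 2 := by
      push_cast
      have h2 : (0 : ℝ) ≤ L := Nat.cast_nonneg _
      have h3 : (L : ℝ) ≤ L * z := le_mul_of_one_le_right h2 hz1
      rw [hK] at hNge
      nlinarith
    have h2 : (N : ℝ) / 2 ≤ M := by
      have h3 : N ≤ 2 * M := by omega
      have h4 : (N : ℝ) ≤ 2 * M := by exact_mod_cast h3
      linarith
    exact_mod_cast h1.trans h2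
  have hBr : W / (4 * K) ≤ B := by
    have h1 : N / 2 < Λ * (B + 1) := by
      have := Nat.lt_div_mul_add hΛ0 (a := N / 2)
      rw [hB]
      nlinarith [Nat.div_add_mod (N / 2) Λ, Nat.mod_lt (N / 2) hΛ0]
    have h2 : N ≤ 2 * (Λ * (B + 1)) := by omega
    have h3 : (N : ℝ) ≤ 2 * (Λ * (B + 1)) := by exact_mod_cast h2
    have h4 : (N : ℝ) ≤ 2 * (K * z * (B + 1)) := by
      refine h3.trans ?_
      have h5 : (0 : ℝ) ≤ (B : ℝ) + 1 := by positivity
      have := mul_le_mul_of_nonneg_right hΛr h5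
      linarith
    rw [← hzN] at h4
    have h5 : W ≤ 2 * (K * (B + 1)) := by
      have hz0 : 0 < z := by linarith
      have h6 : z * W ≤ z * (2 * (K * (B + 1))) := by linarith
      exact le_of_mul_le_mul_left h6 hz0
    rw [div_le_iff₀ (by linarith)]
    nlinarith
  set η : ℕ := (H + 1) / 2 with hη
  have hη1 : 1 ≤ η := by
    have : 1 ≤ H := by
      rw [hH]
      exact Nat.one_le_ceil_iff.2 (by linarith)
    omega
  have hηr : z / 2 ≤ η := by
    have h3 : H ≤ 2 * η := by omega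
    have h4 : (H : ℝ) ≤ 2 * η := by exact_mod_cast h3
    linarith
  -- the blocks
  classical
  set F : ℕ → (ℕ → Bool) → ℝ := fun b ω' => if b < B then
    (if Y h η ω' ≤ 2 * X f (M + b * Λ) (2 * H) ω' then (1 : ℝ) else 0) else 1 with hF
  have hF01 : ∀ b ω, F b ω = 0 ∨ F b ω = 1 := by
    intro b ω
    simp only [hF]
    split_ifs <;> simp
  have hFd : ∀ b, Dep (M + (b + 1) * Λ) (F b) := by
    intro b ω1 ω2 hω
    simp only [hF]
    have e : (b + 1) * Λ = b * Λ + Λ := by ring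
    rw [dep_X hs.depf (M + b * Λ) (2 * H) ω1 ω2 fun k hk => hω k (by omega),
      dep_Y hs.deph η ω1 ω2 fun k hk => hω k (by omega)]
  have hFc : ∀ b ω, c1 ≤ avs p (M + b * Λ) Λ (F b) ω := by
    intro b ω
    by_cases hb : b < B
    · have e : F b = fun ω' => if Y h η ω' ≤ 2 * X f (M + b * Λ) (2 * H) ω'
          then (1 : ℝ) else 0 := by
        funext ω'
        simp only [hF]
        rw [if_pos hb]
      rw [e]
      refine le_trans ?_ (good_block hs hξ.p_nonneg hξ.p_le (M + b * Λ) H Λ (by omega)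
        (by omega) (2 * c₀ * (N : ℝ) ^ (-θ)) (by positivity) ?_ ω)
      · rw [hc1]
        have h1 : 2 * c₀ ≤ 2 * c₀ * (N : ℝ) ^ (-θ) * H := by
          have h2 : (N : ℝ) ^ (-θ) * z = 1 := by
            rw [hz, ← Real.rpow_add hNp]
            simp
          have h3 : (N : ℝ) ^ (-θ) * z ≤ (N : ℝ) ^ (-θ) * H :=
            mul_le_mul_of_nonneg_left hH1 (by positivity)
          rw [h2] at h3
          nlinarith
        have h2 := Real.exp_le_exp.2 (neg_le_neg h1)
        linarith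
      · intro k hk1 hk2
        have hk0 : 1 ≤ k := by omega
        have hkN : k ≤ N := by
          have : (b + 1) * Λ ≤ B * Λ := Nat.mul_le_mul_right _ hb
          have e : (b + 1) * Λ = b * Λ + Λ := by ring
          omega
        have h1 := hp k hk0
        have h2 : (N : ℝ) ^ (-θ) ≤ (k : ℝ) ^ (-θ) := by
          refine Real.rpow_le_rpow_of_nonpos (by exact_mod_cast hk0) (by exact_mod_cast hkN)
            (by linarith)
        have h3 := mul_le_mul_of_nonneg_left h2 hc₀.le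
        constructor <;> linarith [h1.1, h1.2]
    · have e : F b = fun _ => (1 : ℝ) := by
        funext ω'
        simp only [hF]
        rw [if_neg hb]
      rw [e, NS.avs_const]
      exact hc1'.2
  have hfew := hξ.few M Λ F hF01 hFd c1 hFc hc1'.1.le hc1'.2 B
  -- the inclusion of events
  have hsub : {ω | (Y f N (path ξ ω) : ℝ) < c * (N : ℝ) ^ (1 - θ + θ * x)} ⊆
      {ω | ∑ b ∈ range B, F b (path ξ ω) ≤ c1 / 2 * B} ∪
      {ω | (Y h η (path ξ ω) : ℝ) < cT * (η : ℝ) ^ x} := by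
    intro ω hω
    change (Y f N (path ξ ω) : ℝ) < c * (N : ℝ) ^ (1 - θ + θ * x) at hω
    by_contra hno
    rw [Set.mem_union, not_or] at hno
    obtain ⟨hn1, hn2⟩ := hno
    have hn1' : c1 / 2 * B < ∑ b ∈ range B, F b (path ξ ω) := not_le.1 hn1
    have hn2' : cT * (η : ℝ) ^ x ≤ (Y h η (path ξ ω) : ℝ) := not_lt.1 hn2
    have h1 := sum_X_le f (path ξ ω) M Λ (2 * H) B N (by omega) hMB
    have h1r : (∑ b ∈ range B, (X f (M + b * Λ) (2 * H) (path ξ ω) : ℝ)) ≤
        Y f N (path ξ ω) := by exact_mod_cast h1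
    set y : ℝ := (Y h η (path ξ ω) : ℝ) with hy
    have hy0 : 0 ≤ y := Nat.cast_nonneg _
    have h2 : ∀ b ∈ range B, F b (path ξ ω) * (y / 2) ≤
        (X f (M + b * Λ) (2 * H) (path ξ ω) : ℝ) := by
      intro b hb
      rw [Finset.mem_range] at hb
      simp only [hF]
      rw [if_pos hb]
      split_ifs with h3
      · have h4 : y ≤ 2 * (X f (M + b * Λ) (2 * H) (path ξ ω) : ℝ) := by
          rw [hy]
          exact_mod_cast h3
        linarith
      · rw [zero_mul]
        exact Nat.cast_nonneg _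
    have h3 := Finset.sum_le_sum h2
    rw [← Finset.sum_mul] at h3
    have h4 : c1 / 2 * B * (y / 2) ≤ Y f N (path ξ ω) :=
      (mul_le_mul_of_nonneg_right hn1'.le (by positivity)).trans (h3.trans h1r)
    have h5 : (N : ℝ) ^ (θ * x) / 2 ≤ (η : ℝ) ^ x := by
      have h6 : (z / 2) ^ x ≤ (η : ℝ) ^ x := Real.rpow_le_rpow (by positivity) hηr hx0
      refine le_trans ?_ h6
      rw [Real.div_rpow (by linarith) (by norm_num), hz, ← Real.rpow_mul hNp.le]
      refine div_le_div_of_nonneg_left (by positivity) (by positivity) ?_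
      calc (2 : ℝ) ^ x ≤ 2 ^ (1 : ℝ) := Real.rpow_le_rpow_of_exponent_le (by norm_num) hx1
        _ = 2 := Real.rpow_one _
    have h6 : (N : ℝ) ^ (1 - θ + θ * x) = W * (N : ℝ) ^ (θ * x) := by
      rw [Real.rpow_add hNp]
    rw [h6] at hω
    have h7 : c * (W * (N : ℝ) ^ (θ * x)) ≤ c1 / 2 * B * (y / 2) := by
      have h8 : cT * ((N : ℝ) ^ (θ * x) / 2) ≤ y :=
        (mul_le_mul_of_nonneg_left h5 hcT.le).trans hn2'
      have h9 : c * (W * (N : ℝ) ^ (θ * x)) =
          c1 / 2 * (W / (4 * K)) * (cT * ((N : ℝ) ^ (θ * x) / 2) / 2) := by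
        rw [hc]
        field_simp
        ring
      rw [h9]
      have h10 := hc1'.1
      have hW0 : 0 < W := by positivity
      gcongr
    linarith
  refine (measureReal_mono hsub).trans ((measureReal_union_le _ _).trans ?_)
  have e1 : Real.exp (-(c1 / 7 * B)) ≤ C2 / (N : ℝ) ^ A := by
    refine le_trans (Real.exp_le_exp.2 ?_) (hC2 N hN)
    have h1 := mul_le_mul_of_nonneg_left hBr (by linarith [hc1'.1] : 0 ≤ c1 / 7)
    have h2 : c1 / 7 * (W / (4 * K)) = c1 / (28 * K) * W := by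
      field_simp
      ring
    rw [h2] at h1
    linarith
  have e2 : P.real {ω | (Y h η (path ξ ω) : ℝ) < cT * (η : ℝ) ^ x} ≤
      C1 * 2 ^ A' / (N : ℝ) ^ A := by
    refine (hC1 η hη1).trans ?_
    have h1 : (z / 2) ^ A' ≤ (η : ℝ) ^ A' := pow_le_pow_left₀ (by positivity) hηr A'
    have h2 : (N : ℝ) ^ A ≤ z ^ A' := by
      rw [hz, ← Real.rpow_natCast, ← Real.rpow_natCast ((N : ℝ) ^ θ), ← Real.rpow_mul hNp.le]
      refine Real.rpow_le_rpow_of_exponent_le hN1 ?_
      rw [div_le_iff₀ hθ] at hA'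
      linarith
    have h3 : (N : ℝ) ^ A / 2 ^ A' ≤ (η : ℝ) ^ A' := by
      rw [div_pow] at h1
      refine le_trans ?_ h1
      gcongr
    calc C1 / (η : ℝ) ^ A' ≤ C1 / ((N : ℝ) ^ A / 2 ^ A') :=
          div_le_div_of_nonneg_left hC10 (by positivity) h3
      _ = C1 * 2 ^ A' / (N : ℝ) ^ A := by
          field_simp
  have e3 : (C1 * 2 ^ A' + C2 + (N0 : ℝ) ^ A) / (N : ℝ) ^ A =
      C2 / (N : ℝ) ^ A + C1 * 2 ^ A' / (N : ℝ) ^ A + (N0 : ℝ) ^ A / (N : ℝ) ^ A := by
    ring
  rw [e3]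
  have e4 : 0 ≤ (N0 : ℝ) ^ A / (N : ℝ) ^ A := by positivity
  linarith


end Pool.Agent.Q167.NT
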