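import Pool.Agent.Q167.NT.A

set_option autoImplicit false

/-!
# Signs of forms at pairs of places
-/

namespace Pool.Agent.Q167.NT

open Finset MeasureTheory ProbabilityTheory Filter Topology
open Pool.Agent.Q167.NS (Dep avs Bits path Rate sg sg_add abs_sg Slow)

variable {Ω : Type} [MeasurableSpace Ω] {P : Measure Ω} [IsProbabilityMeasure P]
  {ξ : ℕ → Ω → Bool} {p : ℕ → ℝ} {f h : (ℕ → Bool) → ℕ → ZMod 2} {L a : ℕ}

/-- the sign of the form -/
noncomputable def sn (f : (ℕ → Bool) → ℕ → ZMod 2) (n : ℕ) (ω : ℕ → Bool) : ℝ := sg (f ω n)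

theorem abs_sn (f : (ℕ → Bool) → ℕ → ZMod 2) (n : ℕ) (ω : ℕ → Bool) : |sn f n ω| = 1 := abs_sg _

theorem dep_sn (hf : ∀ n, Dep (n + L + 1) (fun ω => f ω n)) (n : ℕ) :
    Dep (n + L + 1) (sn f n) := fun ω ω' h => by
  have h1 : f ω n = f ω' n := hf n ω ω' h
  unfold sn
  rw [h1]

theorem bias_sn (hs : Step f h L a) (hp0 : ∀ k, 0 ≤ p k) (hp1 : ∀ k, p k ≤ 1)
    (v Γ : ℕ) (hv : Γ + 1 ≤ v)
    (hv2 : v + L < 2 * (v - Γ)) (β : ℝ)
    (hβ : ∀ k, v - Γ ≤ k → k ≤ v → β ≤ 2 * p k ∧ β ≤ 2 * (1 - p k)) (hβ0 : 0 ≤ β)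
    (ω : ℕ → Bool) :
    |avs p (v - Γ) (Γ + 1) (sn f v) ω| ≤ Real.exp (-(β * Y h (Γ / 2) ω)) := by
  classical
  obtain ⟨cf, hcf1, hcf2, hcf3⟩ := hs.flip
  have ha := hs.ha
  set m := v - Γ with hm
  have h1 := NS.bias (p := p) m m (Γ + 1) le_rfl (sn f v) (fun ω => (abs_sn f v ω).le)
    (fun k ω' => sg (cf ω' v (max k m))) (fun k ω1 ω2 h => by
      have := hcf1 v (max k m) m (by omega) (le_max_right _ _) ω1 ω2 h
      simp only at this ⊢
      rw [this])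
    (fun k hk hk' ω' => by
      rw [max_eq_left hk]
      unfold sn
      rw [hcf2 ω' k v (by omega) (by omega), sg_add, mul_comm]) ω
  refine h1.trans ?_
  -- the places `v - 2 t`
  set g : ℕ → ℝ := fun i => if ∃ t, t < Γ / 2 ∧ i + 2 * t + a = Γ ∧ h ω t ≠ 0
    then β else 0 with hg
  have h2 : ∏ i ∈ range (Γ + 1), |1 - p (m + i) + p (m + i) * sg (cf ω v (max (m + i) m))| ≤
      ∏ i ∈ range (Γ + 1), Real.exp (-(g i)) := by
    refine Finset.prod_le_prod (fun i _ => abs_nonneg _) fun i hi => ?_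
    rw [Finset.mem_range] at hi
    rw [max_eq_left (by omega : m ≤ m + i)]
    have hb := hβ (m + i) (by omega) (by omega)
    have h3 := NS.abs_factor (p (m + i)) β (cf ω v (m + i)) hb.1 hb.2 (hp0 _) (hp1 _)
    refine h3.trans (Real.exp_le_exp.2 (neg_le_neg ?_))
    simp only [hg]
    split_ifs with h4 h5 h5
    · exact le_rfl
    · exfalso
      obtain ⟨t, ht, hi2, ht0⟩ := h4
      apply h5
      have e : v = (m + i) + 2 * t + a := by omega
      have e2 := hcf3 ω (m + i) t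
      rw [← e] at e2
      rw [e2]
      exact ht0
    · exact hβ0
    · exact le_rfl
  refine h2.trans ?_
  rw [← Real.exp_sum]
  refine Real.exp_le_exp.2 ?_
  rw [Finset.sum_neg_distrib]
  refine neg_le_neg ?_
  simp only [hg]
  rw [← Finset.sum_filter, Finset.sum_const, nsmul_eq_mul, mul_comm]
  refine mul_le_mul_of_nonneg_right ?_ hβ0
  have h3 : Y h (Γ / 2) ω ≤ ((range (Γ + 1)).filter fun i =>
      ∃ t, t < Γ / 2 ∧ i + 2 * t + a = Γ ∧ h ω t ≠ 0).card := by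
    unfold Y
    refine Finset.card_le_card_of_injOn (fun t => Γ - 2 * t - a) ?_ ?_
    · intro t ht
      obtain ⟨h1, h2⟩ := Finset.mem_filter.1 (Finset.mem_coe.1 ht)
      rw [Finset.mem_range] at h1
      refine Finset.mem_coe.2 (Finset.mem_filter.2 ⟨Finset.mem_range.2 ?_, t, h1, ?_, h2⟩)
      · change Γ - 2 * t - a < Γ + 1
        omega
      · change Γ - 2 * t - a + 2 * t + a = Γ
        omega
    · intro a1 ha1 b hb hab
      have ha1 := Finset.mem_range.1 (Finset.mem_filter.1 (Finset.mem_coe.1 ha1)).1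
      have hb1 := Finset.mem_range.1 (Finset.mem_filter.1 (Finset.mem_coe.1 hb)).1
      simp only at hab
      omega
  exact_mod_cast h3

theorem pair (hξ : Bits P ξ p) (hs : Step f h L a) (u v Γ : ℕ) (huv : u + 2 * Γ + L + 1 ≤ v)
    (β : ℝ) (hβ : ∀ k, 1 ≤ k → k ≤ v → β ≤ 2 * p k ∧ β ≤ 2 * (1 - p k)) (hβ0 : 0 ≤ β)
    (y : ℝ) :
    |∫ ω, sn f u (path ξ ω) * sn f v (path ξ ω) ∂P| ≤
      P.real {ω | (Y h (Γ / 2) (path ξ ω) : ℝ) < y} + Real.exp (-(β * y)) := by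
  classical
  have hdu := dep_sn hs.depf u
  have hdv := dep_sn hs.depf v
  have hd : Dep (v + L + 1) (fun ω => sn f u ω * sn f v ω) := fun ω ω' hω => by
    simp only
    rw [hdu ω ω' fun k hk => hω k (by omega), hdv ω ω' hω]
  rw [← hξ.integral_avs hd (v - Γ) (Γ + 1)]
  refine (abs_integral_le_integral_abs).trans ?_
  have hY : Dep (Γ / 2 + L) (Y h (Γ / 2)) := dep_Y hs.deph _
  have hE : Dep (Γ / 2 + L) (fun ω => Real.exp (-(β * Y h (Γ / 2) ω))) :=
    fun ω ω' hω => by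
      simp only
      rw [hY ω ω' hω]
  have hI : Dep (Γ / 2 + L) (fun ω => (if (Y h (Γ / 2) ω : ℝ) < y then (1 : ℝ) else 0)
      + Real.exp (-(β * y))) := fun ω ω' hω => by
    simp only
    rw [hY ω ω' hω]
  have h1 : ∫ ω, |avs p (v - Γ) (Γ + 1) (fun ω => sn f u ω * sn f v ω) (path ξ ω)| ∂P ≤
      ∫ ω, ((if (Y h (Γ / 2) (path ξ ω) : ℝ) < y then (1 : ℝ) else 0)
      + Real.exp (-(β * y))) ∂P := by
    refine integral_mono (hξ.integrable (NS.dep_avs' hd (k := v - Γ) (l := Γ + 1))).abs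
      (hξ.integrable hI) fun ω => ?_
    simp only
    rw [NS.avs_mul _ _ (sn f u) _ (hdu.mono (by omega)), abs_mul, abs_sn, one_mul]
    refine (bias_sn hs hξ.p_nonneg hξ.p_le v Γ (by omega) (by omega) β
      (fun k hk hk' => hβ k (by omega) hk') hβ0 (path ξ ω)).trans ?_
    split_ifs with hlt
    · have h2 : Real.exp (-(β * Y h (Γ / 2) (path ξ ω))) ≤ 1 := by
        rw [← Real.exp_zero]
        refine Real.exp_le_exp.2 ?_
        have : 0 ≤ β * Y h (Γ / 2) (path ξ ω) := by positivity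
        linarith
      have h3 := Real.exp_pos (-(β * y))
      linarith
    · rw [zero_add]
      refine Real.exp_le_exp.2 (neg_le_neg ?_)
      exact mul_le_mul_of_nonneg_left (not_lt.1 hlt) hβ0
  refine h1.trans ?_
  have hms : MeasurableSet {ω | (Y h (Γ / 2) (path ξ ω) : ℝ) < y} := by
    have h2 : Measurable fun ω => (Y h (Γ / 2) (path ξ ω) : ℝ) :=
      measurable_from_nat.comp (hξ.measurable hY)
    exact measurableSet_lt h2 measurable_const
  have e1 : (fun ω => (if (Y h (Γ / 2) (path ξ ω) : ℝ) < y then (1 : ℝ) else 0)) =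
      Set.indicator {ω | (Y h (Γ / 2) (path ξ ω) : ℝ) < y} (fun _ => (1 : ℝ)) := by
    funext ω
    rw [Set.indicator_apply]
    rfl
  rw [integral_add _ (integrable_const _), integral_const, probReal_univ, one_smul, e1,
    integral_indicator_const _ hms, smul_eq_mul, mul_one]
  rw [e1]
  exact (integrable_const (1 : ℝ)).indicator hms

/-- the second moment of a sum over places -/
theorem second (hξ : Bits P ξ p) (hs : Step f h L a) (n : ℕ → ℕ) (hn : StrictMono n) (J Γ : ℕ)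
    (β : ℝ) (hβ : ∀ k, 1 ≤ k → k ≤ n J → β ≤ 2 * p k ∧ β ≤ 2 * (1 - p k)) (hβ0 : 0 ≤ β)
    (y : ℝ) :
    ∫ ω, (∑ j ∈ range J, sn f (n j) (path ξ ω)) ^ 2 ∂P ≤ J * (4 * Γ + 2 * L + 1) +
      (J : ℝ) ^ 2 * (P.real {ω | (Y h (Γ / 2) (path ξ ω) : ℝ) < y} +
        Real.exp (-(β * y))) := by
  classical
  set δ := P.real {ω | (Y h (Γ / 2) (path ξ ω) : ℝ) < y} + Real.exp (-(β * y)) with hδ
  have hδ0 : 0 ≤ δ := add_nonneg measureReal_nonneg (Real.exp_pos _).le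
  have hint : ∀ i j, Integrable (fun ω => sn f (n i) (path ξ ω) * sn f (n j) (path ξ ω)) P := by
    intro i j
    have hd : Dep (n i + n j + L + 1) (fun ω => sn f (n i) ω * sn f (n j) ω) :=
      fun ω ω' hω => by
        simp only
        rw [dep_sn hs.depf (n i) ω ω' fun k hk => hω k (by omega),
          dep_sn hs.depf (n j) ω ω' fun k hk => hω k (by omega)]
    exact hξ.integrable hd
  have h1 : ∫ ω, (∑ j ∈ range J, sn f (n j) (path ξ ω)) ^ 2 ∂P =
      ∑ i ∈ range J, ∑ j ∈ range J,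
        ∫ ω, sn f (n i) (path ξ ω) * sn f (n j) (path ξ ω) ∂P := by
    have e : ∀ ω, (∑ j ∈ range J, sn f (n j) (path ξ ω)) ^ 2 =
        ∑ i ∈ range J, ∑ j ∈ range J, sn f (n i) (path ξ ω) * sn f (n j) (path ξ ω) := by
      intro ω
      rw [sq, Finset.sum_mul_sum]
    rw [integral_congr_ae (Eventually.of_forall e), integral_finsetSum]
    · refine Finset.sum_congr rfl fun i _ => ?_
      rw [integral_finsetSum]
      exact fun j _ => hint i j
    · exact fun i _ => integrable_finsetSum _ fun j _ => hint i j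
  rw [h1]
  have hle : ∀ i j : ℕ, i ≤ j → j - i ≤ n j - n i := by
    intro i j hij
    induction j, hij using Nat.le_induction with
    | base => simp
    | succ j hij ih =>
      have h2 := hn (Nat.lt_succ_self j)
      have h3 := hn.monotone hij
      simp only [Nat.succ_eq_add_one] at h2
      omega
  have hfar : ∀ i j : ℕ, i < J → j < J → i + (2 * Γ + L) < j →
      |∫ ω, sn f (n i) (path ξ ω) * sn f (n j) (path ξ ω) ∂P| ≤ δ := by
    intro i j _ hj hij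
    have h2 := hle i j (by omega)
    have h3 := hn (by omega : i < j)
    refine pair hξ hs (n i) (n j) Γ (by omega) β (fun k hk hk' => hβ k hk ?_) hβ0 y
    exact hk'.trans (hn.monotone hj.le)
  have h2 : ∀ i ∈ range J, ∀ j ∈ range J,
      ∫ ω, sn f (n i) (path ξ ω) * sn f (n j) (path ξ ω) ∂P ≤
      (if j ∈ Icc (i - (2 * Γ + L)) (i + (2 * Γ + L)) then (1 : ℝ) else 0) + δ := by
    intro i hi j hj
    rw [Finset.mem_range] at hi hj
    split_ifs with h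
    · have h3 : ∫ ω, sn f (n i) (path ξ ω) * sn f (n j) (path ξ ω) ∂P ≤ ∫ _, (1 : ℝ) ∂P := by
        refine integral_mono (hint i j) (integrable_const _) fun ω => ?_
        simp only
        refine (le_abs_self _).trans ?_
        rw [abs_mul, abs_sn, abs_sn, one_mul]
      rw [integral_const, probReal_univ, one_smul] at h3
      linarith
    · rw [zero_add]
      rw [Finset.mem_Icc, not_and_or, not_le, not_le] at h
      rcases h with h | h
      · have h3 := hfar j i hj hi (by omega)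
        have e : ∀ ω, sn f (n i) (path ξ ω) * sn f (n j) (path ξ ω) =
            sn f (n j) (path ξ ω) * sn f (n i) (path ξ ω) := fun ω => mul_comm _ _
        rw [integral_congr_ae (Eventually.of_forall e)]
        exact (le_abs_self _).trans h3
      · exact (le_abs_self _).trans (hfar i j hi hj h)
  have h3 : ∀ i ∈ range J, ∑ j ∈ range J,
      ∫ ω, sn f (n i) (path ξ ω) * sn f (n j) (path ξ ω) ∂P ≤
      (4 * Γ + 2 * L + 1) + J * δ := by
    intro i hi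
    refine (Finset.sum_le_sum (h2 i hi)).trans ?_
    rw [Finset.sum_add_distrib, Finset.sum_const, Finset.card_range, nsmul_eq_mul,
      ← Finset.sum_filter, Finset.sum_const, nsmul_eq_mul, mul_one]
    have h4 : ((range J).filter fun j => j ∈ Icc (i - (2 * Γ + L)) (i + (2 * Γ + L))).card ≤
        4 * Γ + 2 * L + 1 := by
      have h5 : (range J).filter (fun j => j ∈ Icc (i - (2 * Γ + L)) (i + (2 * Γ + L))) ⊆
          Icc (i - (2 * Γ + L)) (i + (2 * Γ + L)) := fun j hj => (Finset.mem_filter.1 hj).2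
      refine (Finset.card_le_card h5).trans ?_
      rw [Nat.card_Icc]
      omega
    have h5 : (((range J).filter fun j => j ∈ Icc (i - (2 * Γ + L)) (i + (2 * Γ + L))).card : ℝ) ≤
        4 * Γ + 2 * L + 1 := by exact_mod_cast h4
    linarith
  refine (Finset.sum_le_sum h3).trans ?_
  rw [Finset.sum_const, Finset.card_range, nsmul_eq_mul]
  exact le_of_eq (by ring)

theorem second_rate (hξ : Bits P ξ p) (hs : Step f h L a) {c₀ θ : ℝ}
    (hc₀ : 0 < c₀) (hθ : 0 < θ) (hθ1 : θ < 1) (hp : Rate c₀ θ p)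
    (hgp : ∀ i : ℕ, GP P ξ h (1 - θ ^ i))
    (n : ℕ → ℕ) (hn : StrictMono n) (K κ : ℝ) (hκ0 : 0 ≤ κ) (hκ : θ * κ < 1)
    (hK : ∀ j, (n j : ℝ) ≤ K * ((j : ℝ) + 1) ^ κ) :
    ∃ g C : ℝ, g < 1 ∧ ∀ J : ℕ, 1 ≤ J →
      ∫ ω, (∑ j ∈ range J, sn f (n j) (path ξ ω)) ^ 2 ∂P ≤ C * (J : ℝ) ^ (1 + g) := by
  -- the exponents
  set g : ℝ := (1 + θ * κ) / 2 with hg
  have hg1 : g < 1 := by rw [hg]; linarith
  have hgκ : θ * κ < g := by rw [hg]; linarith
  have hg0 : 0 < g := by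
    have : 0 ≤ θ * κ := by positivity
    linarith
  obtain ⟨i, hi⟩ : ∃ i : ℕ, θ ^ i < 1 - θ * κ / g := by
    refine exists_pow_lt_of_lt_one ?_ hθ1
    rw [sub_pos, div_lt_one hg0]
    exact hgκ
  set x : ℝ := 1 - θ ^ i with hx
  have hx0 : 0 ≤ x := by
    have := pow_le_one₀ hθ.le hθ1.le (n := i)
    rw [hx]
    linarith
  have hgx : 0 < g * x - θ * κ := by
    have h1 : θ * κ / g < x := by rw [hx]; linarith
    rw [div_lt_iff₀ hg0] at h1
    linarith
  obtain ⟨c, hc, hGP⟩ := hgp i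
  obtain ⟨A, hA⟩ := exists_nat_ge (1 / g)
  obtain ⟨C1, hC10, hC1⟩ := hGP A
  set K' : ℝ := |K| * 2 ^ κ + 1 with hK'
  have hK'0 : 0 < K' := by positivity
  obtain ⟨C2, hC20, hC2⟩ := NS.exp_small (2 * c₀ * K' ^ (-θ) * c) (g * x - θ * κ) (by positivity) hgx 1
  refine ⟨g, 16 + 2 * L + 1 + C1 + C2, hg1, fun J hJ => ?_⟩
  have hJ1 : (1 : ℝ) ≤ J := by exact_mod_cast hJ
  have hJ0 : (0 : ℝ) < J := by linarith
  set Q : ℕ := ⌈(J : ℝ) ^ g⌉₊ with hQ
  have hJg1 : 1 ≤ (J : ℝ) ^ g := Real.one_le_rpow hJ1 hg0.le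
  have hQ1 : (J : ℝ) ^ g ≤ Q := Nat.le_ceil _
  have hQ2 : (Q : ℝ) ≤ 2 * (J : ℝ) ^ g := by
    have := Nat.ceil_lt_add_one (by linarith : 0 ≤ (J : ℝ) ^ g)
    rw [← hQ] at this
    linarith
  have hQn : 1 ≤ Q := Nat.one_le_ceil_iff.2 (by linarith)
  set Z : ℝ := K' * (J : ℝ) ^ κ with hZ
  have hZ0 : 0 < Z := by positivity
  have hnJ : (n J : ℝ) ≤ Z := by
    refine (hK J).trans ?_
    have h1 : ((J : ℝ) + 1) ^ κ ≤ (2 * J) ^ κ := Real.rpow_le_rpow (by linarith) (by linarith) hκ0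
    rw [Real.mul_rpow (by norm_num) hJ0.le] at h1
    calc K * ((J : ℝ) + 1) ^ κ ≤ |K| * (2 ^ κ * (J : ℝ) ^ κ) :=
          mul_le_mul (le_abs_self K) h1 (by positivity) (abs_nonneg K)
      _ = |K| * 2 ^ κ * (J : ℝ) ^ κ := by ring
      _ ≤ Z := by
          rw [hZ, hK']
          have : 0 ≤ (J : ℝ) ^ κ := by positivity
          nlinarith
  set β : ℝ := 2 * c₀ * Z ^ (-θ) with hβ
  have hβ0 : 0 ≤ β := by positivity
  have hβk : ∀ k : ℕ, 1 ≤ k → k ≤ n J → β ≤ 2 * p k ∧ β ≤ 2 * (1 - p k) := by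
    intro k hk hkJ
    have h1 := hp k hk
    have hkZ : (k : ℝ) ≤ Z := by
      have : (k : ℝ) ≤ n J := by exact_mod_cast hkJ
      linarith
    have h2 : Z ^ (-θ) ≤ (k : ℝ) ^ (-θ) :=
      Real.rpow_le_rpow_of_nonpos (by exact_mod_cast hk) hkZ (by linarith)
    have h3 := mul_le_mul_of_nonneg_left h2 hc₀.le
    constructor <;> linarith [h1.1, h1.2]
  have h1 := second hξ hs n hn J (2 * Q) β hβk hβ0 (c * (Q : ℝ) ^ x)
  rw [show 2 * Q / 2 = Q by omega] at h1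
  refine h1.trans ?_
  have h2 : P.real {ω | (Y h Q (path ξ ω) : ℝ) < c * (Q : ℝ) ^ x} ≤ C1 / J := by
    refine (hC1 Q hQn).trans ?_
    refine div_le_div_of_nonneg_left hC10 hJ0 ?_
    calc (J : ℝ) = (J : ℝ) ^ (1 : ℝ) := (Real.rpow_one _).symm
      _ ≤ (J : ℝ) ^ (g * A) := by
          refine Real.rpow_le_rpow_of_exponent_le hJ1 ?_
          rw [div_le_iff₀ hg0] at hA
          linarith
      _ = ((J : ℝ) ^ g) ^ A := by
          rw [Real.rpow_mul hJ0.le, Real.rpow_natCast]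
      _ ≤ (Q : ℝ) ^ A := pow_le_pow_left₀ (by positivity) hQ1 A
  have h3 : Real.exp (-(β * (c * (Q : ℝ) ^ x))) ≤ C2 / J := by
    have h4 := hC2 J hJ
    rw [pow_one] at h4
    refine le_trans (Real.exp_le_exp.2 (neg_le_neg ?_)) h4
    have h5 : (J : ℝ) ^ (g * x) ≤ (Q : ℝ) ^ x := by
      rw [Real.rpow_mul hJ0.le]
      exact Real.rpow_le_rpow (by positivity) hQ1 hx0
    have h6 : β = 2 * c₀ * K' ^ (-θ) * (J : ℝ) ^ (-(θ * κ)) := by
      rw [hβ, hZ, Real.mul_rpow hK'0.le (by positivity), ← Real.rpow_mul hJ0.le]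
      rw [show κ * -θ = -(θ * κ) by ring]
      ring
    have h7 : (J : ℝ) ^ (g * x - θ * κ) = (J : ℝ) ^ (g * x) * (J : ℝ) ^ (-(θ * κ)) := by
      rw [← Real.rpow_add hJ0]
      congr 1
    rw [h6, h7]
    calc 2 * c₀ * K' ^ (-θ) * c * ((J : ℝ) ^ (g * x) * (J : ℝ) ^ (-(θ * κ))) =
        2 * c₀ * K' ^ (-θ) * (J : ℝ) ^ (-(θ * κ)) * (c * (J : ℝ) ^ (g * x)) := by ring
      _ ≤ 2 * c₀ * K' ^ (-θ) * (J : ℝ) ^ (-(θ * κ)) * (c * (Q : ℝ) ^ x) := by gcongr
  have h4 : (J : ℝ) * (4 * ((2 * Q : ℕ) : ℝ) + 2 * L + 1) + (J : ℝ) ^ 2 *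
      (P.real {ω | (Y h Q (path ξ ω) : ℝ) < c * (Q : ℝ) ^ x} +
        Real.exp (-(β * (c * (Q : ℝ) ^ x)))) ≤
      J * (16 * (J : ℝ) ^ g + 2 * L + 1) + (J : ℝ) ^ 2 * (C1 / J + C2 / J) := by
    push_cast
    have a1 : 4 * (2 * (Q : ℝ)) + 2 * L + 1 ≤ 16 * (J : ℝ) ^ g + 2 * L + 1 := by linarith
    have a2 := mul_le_mul_of_nonneg_left a1 hJ0.le
    have a3 := mul_le_mul_of_nonneg_left (add_le_add h2 h3) (by positivity : 0 ≤ (J : ℝ) ^ 2)
    linarith
  refine h4.trans ?_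
  have h5 : (J : ℝ) ^ 2 * (C1 / J + C2 / J) = J * (C1 + C2) := by
    field_simp
  have h6 : (J : ℝ) ^ (1 + g) = J * (J : ℝ) ^ g := by
    rw [Real.rpow_add hJ0, Real.rpow_one]
  rw [h5, h6]
  have hL0 : (0 : ℝ) ≤ L := Nat.cast_nonneg _
  have h7 : 16 * (J : ℝ) ^ g + 2 * L + 1 + (C1 + C2) ≤ (16 + 2 * L + 1 + C1 + C2) * (J : ℝ) ^ g := by
    nlinarith
  have h8 := mul_le_mul_of_nonneg_left h7 hJ0.le
  nlinarith


theorem ae_sign (hξ : Bits P ξ p) (hs : Step f h L a) {c₀ θ : ℝ}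
    (hc₀ : 0 < c₀) (hθ : 0 < θ) (hθ1 : θ < 1) (hp : Rate c₀ θ p)
    (hgp : ∀ i : ℕ, GP P ξ h (1 - θ ^ i)) (n : ℕ → ℕ) (hn : Slow θ n) :
    ∀ᵐ ω ∂P, Tendsto (fun J : ℕ => (∑ j ∈ range J, sn f (n j) (path ξ ω)) / (J : ℝ)) atTop
      (𝓝 0) := by
  obtain ⟨hn1, K, κ, hκ0, hκ, hK⟩ := hn
  obtain ⟨g, C, hg, h⟩ := second_rate hξ hs hc₀ hθ hθ1 hp hgp n hn1 K κ hκ0 hκ hK
  exact NS.ae_avg _ (fun j => hξ.measurable (dep_sn hs.depf (n j)))
    (fun j ω => (abs_sn f (n j) _).le) g C hg h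

end Pool.Agent.Q167.NT
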