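import Pool.Agent.Q167.NT.B

set_option autoImplicit false

/-!
# Powers of the reciprocal of a power series with errors in the coefficients
-/

namespace Pool.Agent.Q167.NT

open Finset MeasureTheory ProbabilityTheory Filter Topology
open Pool.Agent.Q167.NS (Dep avs Bits path Rate sg noise)

variable {G : PowerSeries (ZMod 2)}

/-- coefficients of the `s`-th power of the reciprocal of the disturbed series -/
noncomputable def rs (G : PowerSeries (ZMod 2)) (s : ℕ) (ω : ℕ → Bool) (n : ℕ) : ZMod 2 :=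
  PowerSeries.coeff n ((G + noise ω)⁻¹ ^ s)

theorem dep_rs (hG : PowerSeries.constantCoeff G = 1) (s n : ℕ) :
    Dep (n + 1) (fun ω => rs G s ω n) := by
  intro ω ω' hω
  have h1 : (PowerSeries.X : PowerSeries (ZMod 2)) ^ (n + 1) ∣
      (G + noise ω)⁻¹ - (G + noise ω')⁻¹ := by
    rw [PowerSeries.X_pow_dvd_iff]
    intro m hm
    rw [map_sub]
    have := NS.dep_rr hG m ω ω' fun k hk => hω k (by omega)
    simp only [NS.rr] at this
    rw [this, sub_self]
  have h2 := h1.trans (sub_dvd_pow_sub_pow _ _ s)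
  rw [PowerSeries.X_pow_dvd_iff] at h2
  have := h2 n (by omega)
  rw [map_sub, sub_eq_zero] at this
  exact this

theorem pow_flip (b b' x c : PowerSeries (ZMod 2)) (h : b' = b + x * (b * b) + x * x * c)
    (s : ℕ) : ∃ d, b' ^ s = b ^ s + (s : PowerSeries (ZMod 2)) * (x * b ^ (s + 1)) +
      x * x * d := by
  induction s with
  | zero => exact ⟨0, by simp⟩
  | succ s ih =>
    obtain ⟨d, hd⟩ := ih
    refine ⟨b ^ s * c + s * b ^ (s + 3) + s * x * b ^ (s + 1) * c +
      d * (b + x * (b * b) + x * x * c), ?_⟩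
    rw [pow_succ, hd, h]
    push_cast
    ring

/-- the effect of one error -/
theorem rs_flip (hG : PowerSeries.constantCoeff G = 1) (s : ℕ) (ω : ℕ → Bool) (k n : ℕ)
    (hk : 1 ≤ k) (hn : n < 2 * k) :
    rs G s (Function.update ω k true) n = rs G s (Function.update ω k false) n +
      if Odd s ∧ k ≤ n ∧ Even (n - k) then rs G ((s + 1) / 2) ω ((n - k) / 2) else 0 := by
  have e1 : G + noise (Function.update ω k true) =
      (G + noise (Function.update ω k false)) + PowerSeries.X ^ k := by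
    rw [add_assoc]
    congr 1
    ext m
    rw [map_add, noise, noise, PowerSeries.coeff_mk, PowerSeries.coeff_mk, PowerSeries.coeff_X_pow]
    by_cases h : m = k
    · subst h
      simp [hk]
    · rw [Function.update_of_ne h, Function.update_of_ne h, if_neg h, add_zero]
  set F0 := G + noise (Function.update ω k false) with hF0
  have h1 := PowerSeries.mul_inv_cancel F0 (NS.constCoeff hG _)
  have h2 := PowerSeries.mul_inv_cancel (F0 + PowerSeries.X ^ k) (by
    rw [← e1]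
    exact NS.constCoeff hG _)
  have h20 : (2 : PowerSeries (ZMod 2)) = 0 := by
    have : (2 : PowerSeries (ZMod 2)) = PowerSeries.C (2 : ZMod 2) := by
      rw [map_ofNat]
    rw [this, show (2 : ZMod 2) = 0 from rfl, map_zero]
  have h3 : (F0 + PowerSeries.X ^ k)⁻¹ = F0⁻¹ + PowerSeries.X ^ k * (F0⁻¹ * F0⁻¹) +
      PowerSeries.X ^ k * PowerSeries.X ^ k * (F0⁻¹ * F0⁻¹ * (F0 + PowerSeries.X ^ k)⁻¹) := by
    generalize (F0 + PowerSeries.X ^ k)⁻¹ = b at h2 ⊢
    generalize F0⁻¹ = a at h1 ⊢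
    generalize (PowerSeries.X : PowerSeries (ZMod 2)) ^ k = x at h2 ⊢
    linear_combination (1 - a * x) * (a * h2 - b * h1) - a ^ 2 * x * h20
  obtain ⟨d, hd⟩ := pow_flip _ _ _ _ h3 s
  have h4 := congrArg (PowerSeries.coeff n) hd
  rw [map_add, map_add, ← pow_add, PowerSeries.coeff_X_pow_mul' (n := k + k),
    if_neg (by omega : ¬ k + k ≤ n), add_zero] at h4
  simp only [rs]
  rw [e1, h4]
  congr 1
  by_cases hs : Odd s
  · obtain ⟨r, hr⟩ := hs
    have hc : (s : PowerSeries (ZMod 2)) = 1 := by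
      rw [hr]
      push_cast
      rw [h20, zero_mul, zero_add]
    have hp : F0⁻¹ ^ (s + 1) = F0⁻¹ ^ (r + 1) * F0⁻¹ ^ (r + 1) := by
      rw [← pow_add]
      congr 1
      omega
    rw [hc, one_mul, hp, PowerSeries.coeff_X_pow_mul']
    by_cases hkn : k ≤ n
    · rw [if_pos hkn, NS.coeff_sq]
      by_cases he : Even (n - k)
      · rw [if_pos he, if_pos ⟨⟨r, hr⟩, hkn, he⟩, show (s + 1) / 2 = r + 1 by omega]
        exact (dep_rs hG (r + 1) ((n - k) / 2)).update (by omega) ω false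
      · rw [if_neg he, if_neg (fun h => he h.2.2)]
    · rw [if_neg hkn, if_neg (fun h => hkn h.2.1)]
  · rw [if_neg (fun h => hs h.1)]
    rw [Nat.not_odd_iff_even] at hs
    obtain ⟨r, hr⟩ := hs
    have hc : (s : PowerSeries (ZMod 2)) = 0 := by
      rw [hr]
      push_cast
      rw [← two_mul, h20, zero_mul]
    rw [hc, zero_mul, map_zero]

/-- the linear form with the exponents and shifts in `T` -/
noncomputable def form (G : PowerSeries (ZMod 2)) (T : Finset (ℕ × ℕ)) (ω : ℕ → Bool) (n : ℕ) :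
    ZMod 2 := ∑ x ∈ T, rs G x.1 ω (n + x.2)

/-- the coefficient of an error at the place `k` -/
noncomputable def cf (G : PowerSeries (ZMod 2)) (T : Finset (ℕ × ℕ)) (ω : ℕ → Bool) (n k : ℕ) :
    ZMod 2 := ∑ x ∈ T, if Odd x.1 ∧ k ≤ n + x.2 ∧ Even (n + x.2 - k) then
      rs G ((x.1 + 1) / 2) ω ((n + x.2 - k) / 2) else 0

/-- the form of the effects of errors -/
def halfT (a : ℕ) (T : Finset (ℕ × ℕ)) : Finset (ℕ × ℕ) :=
  (T.filter fun x => Odd x.1 ∧ Even (x.2 + a)).image fun x => ((x.1 + 1) / 2, (x.2 + a) / 2)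

theorem dep_form (hG : PowerSeries.constantCoeff G = 1) (T : Finset (ℕ × ℕ)) (L : ℕ)
    (hT : ∀ x ∈ T, x.2 ≤ L) (n : ℕ) : Dep (n + L + 1) (fun ω => form G T ω n) := by
  intro ω ω' hω
  refine Finset.sum_congr rfl fun x hx => ?_
  have := hT x hx
  exact dep_rs hG x.1 (n + x.2) ω ω' fun k hk => hω k (by omega)

theorem step (hG : PowerSeries.constantCoeff G = 1) (T : Finset (ℕ × ℕ)) (L : ℕ)
    (hT : ∀ x ∈ T, x.2 ≤ L) (a : ℕ) (ha : a ≤ 1) :
    Step (form G T) (form G (halfT a T)) (L + 1) a where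
  ha := ha
  depf n := (dep_form hG T L hT n).mono (by omega)
  deph n := (dep_form hG (halfT a T) (L + 1) (fun x hx => by
    obtain ⟨y, hy, rfl⟩ := Finset.mem_image.1 hx
    have := hT y (Finset.mem_filter.1 hy).1
    change (y.2 + a) / 2 ≤ L + 1
    omega) n).mono (by omega)
  flip := by
    refine ⟨cf G T, ?_, ?_, ?_⟩
    · intro n k m hm hk ω ω' hω
      refine Finset.sum_congr rfl fun x hx => ?_
      have := hT x hx
      split_ifs with h
      · exact dep_rs hG _ _ ω ω' fun j hj => hω j (by omega)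
      · rfl
    · intro ω k n hk hn
      unfold form cf
      rw [← Finset.sum_add_distrib]
      refine Finset.sum_congr rfl fun x hx => ?_
      have := hT x hx
      exact rs_flip hG x.1 ω k (n + x.2) hk (by omega)
    · intro ω k t
      unfold cf form halfT
      have h1 : ∀ x ∈ T, (if Odd x.1 ∧ k ≤ k + 2 * t + a + x.2 ∧ Even (k + 2 * t + a + x.2 - k)
          then rs G ((x.1 + 1) / 2) ω ((k + 2 * t + a + x.2 - k) / 2) else 0) =
          if Odd x.1 ∧ Even (x.2 + a) then rs G ((x.1 + 1) / 2) ω (t + (x.2 + a) / 2) else 0 := by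
        intro x _
        have e1 : k + 2 * t + a + x.2 - k = 2 * t + (x.2 + a) := by omega
        rw [e1]
        by_cases hx : Odd x.1 ∧ Even (x.2 + a)
        · have e2 : (2 * t + (x.2 + a)) / 2 = t + (x.2 + a) / 2 := by omega
          rw [if_pos hx, if_pos ⟨hx.1, by omega, (even_two_mul t).add hx.2⟩, e2]
        · rw [if_neg hx, if_neg]
          rintro ⟨h2, _, h3⟩
          exact hx ⟨h2, (Nat.even_add.1 h3).1 (even_two_mul t)⟩
      rw [Finset.sum_congr rfl h1, ← Finset.sum_filter, Finset.sum_image]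
      intro x hx y hy hxy
      obtain ⟨⟨a1, ha1⟩, ⟨b1, hb1⟩⟩ := (Finset.mem_filter.1 hx).2
      obtain ⟨⟨a2, ha2⟩, ⟨b2, hb2⟩⟩ := (Finset.mem_filter.1 hy).2
      simp only [Prod.mk.injEq] at hxy
      exact Prod.ext (by omega) (by omega)

variable {Ω : Type} [MeasurableSpace Ω] {P : Measure Ω} [IsProbabilityMeasure P]
  {ξ : ℕ → Ω → Bool} {p : ℕ → ℝ}

/-- many nonzero values of `g` give many nonzero values of `f` -/
theorem GP.transfer {f g : (ℕ → Bool) → ℕ → ZMod 2} {x : ℝ} (hx0 : 0 < x) (hx1 : x ≤ 1) (a : ℕ)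
    (hfg : ∀ ω N, Y g (N / 2) ω ≤ Y f N ω + a) (h : GP P ξ g x) : GP P ξ f x := by
  obtain ⟨c, hc, h⟩ := h
  refine ⟨c / 6, by positivity, fun A => ?_⟩
  obtain ⟨C, hC0, hC⟩ := h A
  have hev : ∀ᶠ N : ℕ in atTop, (a : ℝ) ≤ c / 6 * (N : ℝ) ^ x := by
    have h1 := (tendsto_rpow_atTop hx0).comp tendsto_natCast_atTop_atTop
    have h2 := h1.const_mul_atTop (by positivity : 0 < c / 6)
    exact h2.eventually_ge_atTop _
  obtain ⟨N0, hN0⟩ := eventually_atTop.1 hev
  refine ⟨C * 3 ^ A + ((N0 : ℝ) + 2) ^ A, by positivity, fun N hN => ?_⟩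
  have hN1 : (1 : ℝ) ≤ N := by exact_mod_cast hN
  have hNp : (0 : ℝ) < N := by linarith
  have hNA : (0 : ℝ) < (N : ℝ) ^ A := by positivity
  by_cases hlt : N < N0 + 2
  · refine (measureReal_le_one).trans ?_
    rw [le_div_iff₀ hNA, one_mul]
    have : (N : ℝ) ^ A ≤ ((N0 : ℝ) + 2) ^ A := by
      refine pow_le_pow_left₀ hNp.le ?_ A
      exact_mod_cast hlt.le
    have h3 : 0 ≤ C * 3 ^ A := by positivity
    linarith
  have hbig := hN0 N (by omega)
  have hM1 : 1 ≤ N / 2 := by omega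
  have hM : (N : ℝ) / 3 ≤ ((N / 2 : ℕ) : ℝ) := by
    rw [div_le_iff₀ (by norm_num)]
    have : N ≤ N / 2 * 3 := by omega
    exact_mod_cast this
  have h1 : P.real {ω | (Y f N (path ξ ω) : ℝ) < c / 6 * (N : ℝ) ^ x} ≤
      P.real {ω | (Y g (N / 2) (path ξ ω) : ℝ) < c * ((N / 2 : ℕ) : ℝ) ^ x} := by
    refine measureReal_mono fun ω hω => ?_
    change (Y f N (path ξ ω) : ℝ) < c / 6 * (N : ℝ) ^ x at hω
    change (Y g (N / 2) (path ξ ω) : ℝ) < c * ((N / 2 : ℕ) : ℝ) ^ x
    have h2 : (Y g (N / 2) (path ξ ω) : ℝ) ≤ Y f N (path ξ ω) + a := by exact_mod_cast hfg _ N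
    have h3 : ((N : ℝ) / 3) ^ x ≤ ((N / 2 : ℕ) : ℝ) ^ x :=
      Real.rpow_le_rpow (by positivity) hM hx0.le
    have h4 : (N : ℝ) ^ x / 3 ≤ ((N : ℝ) / 3) ^ x := by
      rw [Real.div_rpow hNp.le (by norm_num)]
      refine div_le_div_of_nonneg_left (by positivity) (by positivity) ?_
      calc (3 : ℝ) ^ x ≤ 3 ^ (1 : ℝ) := Real.rpow_le_rpow_of_exponent_le (by norm_num) hx1
        _ = 3 := Real.rpow_one _
    have h5 := mul_le_mul_of_nonneg_left (h4.trans h3) hc.le
    linarith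
  refine h1.trans ((hC (N / 2) hM1).trans ?_)
  have h2 : ((N : ℝ) / 3) ^ A ≤ ((N / 2 : ℕ) : ℝ) ^ A := pow_le_pow_left₀ (by positivity) hM A
  have h3 : C / ((N / 2 : ℕ) : ℝ) ^ A ≤ C / ((N : ℝ) / 3) ^ A :=
    div_le_div_of_nonneg_left hC0 (by positivity) h2
  have h4 : C / ((N : ℝ) / 3) ^ A = C * 3 ^ A / (N : ℝ) ^ A := by
    rw [div_pow]
    field_simp
  rw [h4] at h3
  refine h3.trans ?_
  rw [add_div]
  have : 0 ≤ ((N0 : ℝ) + 2) ^ A / (N : ℝ) ^ A := by positivity
  linarith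

end Pool.Agent.Q167.NT
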