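import Pool.Agent.Q167.NT.C

set_option autoImplicit false

/-!
# All forms have many nonzero values
-/

namespace Pool.Agent.Q167.NT

open Finset MeasureTheory ProbabilityTheory Filter Topology
open Pool.Agent.Q167.NS (Dep avs Bits path Rate sg noise)

variable {G : PowerSeries (ZMod 2)}
variable {Ω : Type} [MeasurableSpace Ω] {P : Measure Ω} [IsProbabilityMeasure P]
  {ξ : ℕ → Ω → Bool} {p : ℕ → ℝ}

theorem rs_even (r : ℕ) (ω : ℕ → Bool) (n : ℕ) :
    rs G (2 * r) ω n = if Even n then rs G r ω (n / 2) else 0 := by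
  unfold rs
  rw [two_mul, pow_add, NS.coeff_sq]

theorem growth_one (hξ : Bits P ξ p) (hG : PowerSeries.constantCoeff G = 1) {c₀ θ : ℝ}
    (hc₀ : 0 < c₀) (hθ : 0 < θ) (hθ1 : θ < 1) (hp : Rate c₀ θ p) (T : Finset (ℕ × ℕ))
    (hT : T.Nonempty) (h1 : ∀ x ∈ T, x.1 = 1) (j : ℕ) : GP P ξ (form G T) (1 - θ ^ (j + 1)) := by
  classical
  set S : Finset ℕ := T.image Prod.snd with hS
  have hSne : S.Nonempty := hT.image _
  set a := S.min' hSne with ha
  set S' : Finset ℕ := S.image (· - a) with hS'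
  have h0 : 0 ∈ S' := Finset.mem_image.2 ⟨a, Finset.min'_mem S hSne, Nat.sub_self a⟩
  have hg : GP P ξ (fun ω n => NS.lin G S' ω n) (1 - θ ^ (j + 1)) :=
    hξ.growth hG hc₀ hθ hθ1 hp (j + 1) (S'.sup id) S' (fun l hl => Finset.le_sup (f := id) hl) h0
  have hpow : θ ^ (j + 1) < 1 := pow_lt_one₀ hθ.le hθ1 (by omega)
  have hpow0 : 0 < θ ^ (j + 1) := by positivity
  have key : ∀ ω n, form G T ω n = NS.lin G S' ω (n + a) := by
    intro ω n
    unfold form NS.lin
    have e1 : ∑ x ∈ T, rs G x.1 ω (n + x.2) = ∑ x ∈ T, NS.rr G ω (n + x.2) := by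
      refine Finset.sum_congr rfl fun x hx => ?_
      rw [h1 x hx, rs, NS.rr, pow_one]
    have e2 : ∑ l ∈ S, NS.rr G ω (n + l) = ∑ x ∈ T, NS.rr G ω (n + x.2) := by
      rw [hS, Finset.sum_image]
      intro x hx y hy hxy
      exact Prod.ext ((h1 x hx).trans (h1 y hy).symm) hxy
    have e3 : ∑ l ∈ S', NS.rr G ω (n + a + l) = ∑ l ∈ S, NS.rr G ω (n + a + (l - a)) := by
      rw [hS']
      refine Finset.sum_image (f := fun l => NS.rr G ω (n + a + l)) ?_
      intro b hb c hc hbc
      have h1 := Finset.min'_le S b hb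
      have h2 := Finset.min'_le S c hc
      rw [← ha] at h1 h2
      simp only at hbc
      omega
    rw [e1, ← e2, e3]
    refine Finset.sum_congr rfl fun l hl => ?_
    have := Finset.min'_le S l hl
    rw [← ha] at this
    congr 1
    omega
  refine GP.transfer (by linarith) (by linarith) a (fun ω N => ?_) hg
  unfold Y
  have h2 : (range (N / 2)).filter (fun t => NS.lin G S' ω t ≠ 0) ⊆
      range a ∪ ((range N).filter fun t => form G T ω t ≠ 0).image (· + a) := by
    intro t ht
    obtain ⟨h3, h4⟩ := Finset.mem_filter.1 ht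
    rw [Finset.mem_range] at h3
    by_cases hta : t < a
    · exact Finset.mem_union_left _ (Finset.mem_range.2 hta)
    · refine Finset.mem_union_right _ (Finset.mem_image.2 ⟨t - a, Finset.mem_filter.2
        ⟨Finset.mem_range.2 (by omega), ?_⟩, by omega⟩)
      rw [key, Nat.sub_add_cancel (not_lt.1 hta)]
      exact h4
  refine (Finset.card_le_card h2).trans ((Finset.card_union_le _ _).trans ?_)
  have h3 := Finset.card_image_le (s := (range N).filter fun t => form G T ω t ≠ 0) (f := (· + a))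
  rw [Finset.card_range]
  omega

/-- all forms have many nonzero values -/
theorem growth (hξ : Bits P ξ p) (hG : PowerSeries.constantCoeff G = 1) {c₀ θ : ℝ}
    (hc₀ : 0 < c₀) (hθ : 0 < θ) (hθ1 : θ < 1) (hp : Rate c₀ θ p) (K : ℕ) (T : Finset (ℕ × ℕ))
    (hT : T.Nonempty) (h1 : ∀ x ∈ T, 1 ≤ x.1 ∧ x.1 ≤ K) (j : ℕ) :
    GP P ξ (form G T) (1 - θ ^ j) := by
  classical
  have hx0 : ∀ j : ℕ, 0 ≤ 1 - θ ^ j := fun j => by
    have := pow_le_one₀ hθ.le hθ1.le (n := j)
    linarith
  have hx1 : ∀ j : ℕ, 1 - θ ^ j ≤ 1 := fun j => by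
    have : 0 < θ ^ j := by positivity
    linarith
  have hx2 : ∀ j : ℕ, 0 < 1 - θ ^ (j + 1) := fun j => by
    have := pow_lt_one₀ hθ.le hθ1 (by omega : j + 1 ≠ 0)
    linarith
  have hmono : ∀ j : ℕ, 1 - θ ^ j ≤ 1 - θ ^ (j + 1) := fun j => by
    have : θ ^ (j + 1) ≤ θ ^ j := pow_le_pow_of_le_one hθ.le hθ1.le (by omega)
    linarith
  have hstep : ∀ j : ℕ, 1 - θ + θ * (1 - θ ^ j) = 1 - θ ^ (j + 1) := fun j => by ring
  induction K using Nat.strong_induction_on generalizing T j with
  | _ K ih =>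
    by_cases hall : ∀ x ∈ T, x.1 = 1
    · exact (growth_one hξ hG hc₀ hθ hθ1 hp T hT hall j).mono (hmono j)
    have hK : 2 ≤ K := by
      push Not at hall
      obtain ⟨x, hx, hx'⟩ := hall
      have := h1 x hx
      omega
    by_cases hodd : ∃ x ∈ T, Odd x.1
    · obtain ⟨x₀, hx₀, hx₀o⟩ := hodd
      have hTL : ∀ x ∈ T, x.2 ≤ T.sup Prod.snd := fun x hx => Finset.le_sup (f := Prod.snd) hx
      have ha : x₀.2 % 2 ≤ 1 := by omega
      have hs := step hG T _ hTL (x₀.2 % 2) ha
      have hev : Even (x₀.2 + x₀.2 % 2) := by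
        rw [Nat.even_iff]
        omega
      have hne : (halfT (x₀.2 % 2) T).Nonempty :=
        ⟨_, Finset.mem_image.2 ⟨x₀, Finset.mem_filter.2 ⟨hx₀, hx₀o, hev⟩, rfl⟩⟩
      have h2 : ∀ x ∈ halfT (x₀.2 % 2) T, 1 ≤ x.1 ∧ x.1 ≤ (K + 1) / 2 := by
        intro x hx
        obtain ⟨y, hy, rfl⟩ := Finset.mem_image.1 hx
        have := h1 y (Finset.mem_filter.1 hy).1
        change 1 ≤ (y.1 + 1) / 2 ∧ (y.1 + 1) / 2 ≤ (K + 1) / 2
        omega
      have h3 := ih ((K + 1) / 2) (by omega) _ hne h2 j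
      have h4 := recursion hξ hs hc₀ hθ hθ1 hp _ (hx0 j) (hx1 j) h3
      rw [hstep j] at h4
      exact h4.mono (hmono j)
    · push Not at hodd
      obtain ⟨x₀, hx₀⟩ := hT
      set b := x₀.2 % 2 with hb
      have hb1 : b ≤ 1 := by omega
      set T' : Finset (ℕ × ℕ) := (T.filter fun x => Even (x.2 + b)).image
        fun x => (x.1 / 2, (x.2 + b) / 2) with hT'
      have hne : T'.Nonempty :=
        ⟨_, Finset.mem_image.2 ⟨x₀, Finset.mem_filter.2 ⟨hx₀, by rw [Nat.even_iff]; omega⟩, rfl⟩⟩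
      have h2 : ∀ x ∈ T', 1 ≤ x.1 ∧ x.1 ≤ K / 2 := by
        intro x hx
        obtain ⟨y, hy, rfl⟩ := Finset.mem_image.1 hx
        have h3 := h1 y (Finset.mem_filter.1 hy).1
        have h4 := Nat.not_odd_iff_even.1 (hodd y (Finset.mem_filter.1 hy).1)
        rw [Nat.even_iff] at h4
        change 1 ≤ y.1 / 2 ∧ y.1 / 2 ≤ K / 2
        omega
      have h3 := ih (K / 2) (by omega) _ hne h2 (j + 1)
      have key : ∀ ω t, form G T ω (2 * t + b) = form G T' ω t := by
        intro ω t
        unfold form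
        have e1 : ∀ x ∈ T, rs G x.1 ω (2 * t + b + x.2) =
            if Even (x.2 + b) then rs G (x.1 / 2) ω (t + (x.2 + b) / 2) else 0 := by
          intro x hx
          have h4 := Nat.not_odd_iff_even.1 (hodd x hx)
          have h5 : x.1 = 2 * (x.1 / 2) := by
            rw [Nat.even_iff] at h4
            omega
          rw [h5, rs_even, show 2 * (x.1 / 2) / 2 = x.1 / 2 by omega]
          by_cases he : Even (x.2 + b)
          · rw [if_pos he, if_pos (by
              rw [Nat.even_iff] at he ⊢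
              omega), show (2 * t + b + x.2) / 2 = t + (x.2 + b) / 2 by omega]
          · rw [if_neg he, if_neg (by
              rw [Nat.even_iff] at he ⊢
              omega)]
        rw [Finset.sum_congr rfl e1, ← Finset.sum_filter, hT', Finset.sum_image]
        intro x hx y hy hxy
        obtain ⟨hx1, hx2⟩ := Finset.mem_filter.1 hx
        obtain ⟨hy1, hy2⟩ := Finset.mem_filter.1 hy
        have hx3 := Nat.not_odd_iff_even.1 (hodd x hx1)
        have hy3 := Nat.not_odd_iff_even.1 (hodd y hy1)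
        rw [Nat.even_iff] at hx2 hy2 hx3 hy3
        simp only [Prod.mk.injEq] at hxy
        exact Prod.ext (by omega) (by omega)
      refine (GP.transfer (hx2 j) (hx1 _) 0 (fun ω N => ?_) h3).mono (hmono j)
      unfold Y
      rw [Nat.add_zero]
      refine Finset.card_le_card_of_injOn (fun t => 2 * t + b) ?_ ?_
      · intro t ht
        obtain ⟨h4, h5⟩ := Finset.mem_filter.1 (Finset.mem_coe.1 ht)
        rw [Finset.mem_range] at h4
        refine Finset.mem_coe.2 (Finset.mem_filter.2 ⟨Finset.mem_range.2 ?_, ?_⟩)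
        · change 2 * t + b < N
          omega
        · change form G T ω (2 * t + b) ≠ 0
          rw [key]
          exact h5
      · intro x _ y _ hxy
        simp only at hxy
        omega

end Pool.Agent.Q167.NT
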