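import Pool.Agent.Q167.NT.D

set_option autoImplicit false

/-!
# Almost sure cancellation, frequencies of joint blocks, few errors, multipartitions
-/

namespace Pool.Agent.Q167.NT

open Finset MeasureTheory ProbabilityTheory Filter Topology
open Pool.Agent.Q167.NS (Dep avs Bits path Rate sg sg_sum sg_add noise Slow)

variable {G : PowerSeries (ZMod 2)}
variable {Ω : Type} [MeasurableSpace Ω] {P : Measure Ω} [IsProbabilityMeasure P]
  {ξ : ℕ → Ω → Bool} {p : ℕ → ℝ}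

theorem ae_form (hξ : Bits P ξ p) (hG : PowerSeries.constantCoeff G = 1) {c₀ θ : ℝ}
    (hc₀ : 0 < c₀) (hθ : 0 < θ) (hθ1 : θ < 1) (hp : Rate c₀ θ p) (T : Finset (ℕ × ℕ))
    (hodd : ∃ x ∈ T, Odd x.1) (h1 : ∀ x ∈ T, 1 ≤ x.1) (n : ℕ → ℕ) (hn : Slow θ n) :
    ∀ᵐ ω ∂P, Tendsto (fun J : ℕ => (∑ j ∈ range J, sn (form G T) (n j) (path ξ ω)) / (J : ℝ))
      atTop (𝓝 0) := by
  obtain ⟨x₀, hx₀, hx₀o⟩ := hodd
  have hTL : ∀ x ∈ T, x.2 ≤ T.sup Prod.snd := fun x hx => Finset.le_sup (f := Prod.snd) hx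
  have ha : x₀.2 % 2 ≤ 1 := by omega
  have hs := step hG T _ hTL (x₀.2 % 2) ha
  have hev : Even (x₀.2 + x₀.2 % 2) := by
    rw [Nat.even_iff]
    omega
  have hne : (halfT (x₀.2 % 2) T).Nonempty :=
    ⟨_, Finset.mem_image.2 ⟨x₀, Finset.mem_filter.2 ⟨hx₀, hx₀o, hev⟩, rfl⟩⟩
  have h2 : ∀ x ∈ halfT (x₀.2 % 2) T, 1 ≤ x.1 ∧ x.1 ≤ (T.sup Prod.fst + 1) / 2 := by
    intro x hx
    obtain ⟨y, hy, rfl⟩ := Finset.mem_image.1 hx
    have h3 := h1 y (Finset.mem_filter.1 hy).1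
    have h4 : y.1 ≤ T.sup Prod.fst := Finset.le_sup (f := Prod.fst) (Finset.mem_filter.1 hy).1
    change 1 ≤ (y.1 + 1) / 2 ∧ (y.1 + 1) / 2 ≤ (T.sup Prod.fst + 1) / 2
    omega
  exact ae_sign hξ hs hc₀ hθ hθ1 hp (growth hξ hG hc₀ hθ hθ1 hp _ _ hne h2) n hn

/-- the exponents are odd and positive -/
def Adm (T : Finset (ℕ × ℕ)) : Prop := T.Nonempty ∧ ∀ x ∈ T, Odd x.1

theorem ae_forms (hξ : Bits P ξ p) (hG : PowerSeries.constantCoeff G = 1) {c₀ θ : ℝ}
    (hc₀ : 0 < c₀) (hθ : 0 < θ) (hθ1 : θ < 1) (hp : Rate c₀ θ p) (n : ℕ → ℕ) (hn : Slow θ n) :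
    ∀ᵐ ω ∂P, ∀ T : Finset (ℕ × ℕ), Adm T →
      Tendsto (fun J : ℕ => (∑ j ∈ range J, sn (form G T) (n j) (path ξ ω)) / (J : ℝ)) atTop
        (𝓝 0) := by
  rw [ae_all_iff]
  intro T
  by_cases hT : Adm T
  · obtain ⟨x₀, hx₀⟩ := hT.1
    filter_upwards [ae_form hξ hG hc₀ hθ hθ1 hp T ⟨x₀, hx₀, hT.2 x₀ hx₀⟩
      (fun x hx => (hT.2 x hx).pos) n hn] with ω hω _
    exact hω
  · exact Eventually.of_forall fun ω h => absurd h hT

/-- frequencies of joint blocks from the signs -/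
theorem freq {ι : Type} [DecidableEq ι] (I : Finset ι) (r : ι → ℕ → ZMod 2)
    (h : ∀ S ⊆ I, S.Nonempty → Tendsto (fun J : ℕ =>
      (∑ j ∈ range J, sg (∑ x ∈ S, r x j)) / (J : ℝ)) atTop (𝓝 0)) (e : ι → ZMod 2) :
    Tendsto (fun J : ℕ => (((range J).filter fun j => ∀ x ∈ I, r x j = e x).card : ℝ) / J)
      atTop (𝓝 (1 / 2 ^ I.card)) := by
  classical
  have hind : ∀ j, (if ∀ x ∈ I, r x j = e x then (1 : ℝ) else 0) =
      (1 / 2 ^ I.card) * ∑ S ∈ I.powerset, (∏ x ∈ S, sg (e x)) * sg (∑ x ∈ S, r x j) := by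
    intro j
    have h1 : ∀ S ∈ I.powerset, (∏ x ∈ S, sg (e x)) * sg (∑ x ∈ S, r x j) =
        ∏ x ∈ S, sg (r x j + e x) := by
      intro S _
      rw [sg_sum, ← Finset.prod_mul_distrib]
      refine Finset.prod_congr rfl fun i _ => ?_
      rw [sg_add, mul_comm]
    rw [Finset.sum_congr rfl h1, ← Finset.prod_one_add]
    have h2 : ∀ x y : ZMod 2, 1 + sg (x + y) = if x = y then 2 else 0 := by
      intro x y
      have h3 : ∀ x y : ZMod 2, x + y = 0 ↔ x = y := by decide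
      unfold sg
      by_cases hxy : x = y
      · rw [if_pos ((h3 x y).2 hxy), if_pos hxy]
        norm_num
      · rw [if_neg (fun h4 => hxy ((h3 x y).1 h4)), if_neg hxy]
        norm_num
    rw [Finset.prod_congr rfl fun x _ => h2 (r x j) (e x)]
    split_ifs with hall
    · rw [Finset.prod_congr rfl fun x hx => if_pos (hall x hx), Finset.prod_const]
      field_simp
    · push Not at hall
      obtain ⟨i, hi, hne⟩ := hall
      rw [Finset.prod_eq_zero hi (if_neg hne), mul_zero]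
  have hcount : ∀ J : ℕ, (((range J).filter fun j => ∀ x ∈ I, r x j = e x).card : ℝ) / J =
      (1 / 2 ^ I.card) * ∑ S ∈ I.powerset, (∏ x ∈ S, sg (e x)) *
        ((∑ j ∈ range J, sg (∑ x ∈ S, r x j)) / (J : ℝ)) := by
    intro J
    rw [Finset.card_filter]
    push_cast
    rw [Finset.sum_congr rfl fun j _ => hind j, ← Finset.mul_sum, Finset.sum_comm, mul_div_assoc,
      Finset.sum_div]
    congr 1
    refine Finset.sum_congr rfl fun S _ => ?_
    rw [← Finset.mul_sum, mul_div_assoc]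
  have hlim : ∀ S ∈ I.powerset, Tendsto (fun J : ℕ => (∏ x ∈ S, sg (e x)) *
      ((∑ j ∈ range J, sg (∑ x ∈ S, r x j)) / (J : ℝ))) atTop
      (𝓝 (if S = ∅ then 1 else 0)) := by
    intro S hSI
    by_cases hS : S = ∅
    · rw [if_pos hS, hS]
      refine Tendsto.congr' ?_ tendsto_const_nhds
      filter_upwards [eventually_ge_atTop 1] with J hJ
      have hJ0 : (J : ℝ) ≠ 0 := by
        have : (0 : ℝ) < J := by exact_mod_cast hJ
        exact this.ne'
      simp [sg, hJ0]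
    · rw [if_neg hS]
      have := (h S (Finset.mem_powerset.1 hSI) (Finset.nonempty_iff_ne_empty.2 hS)).const_mul
        (∏ x ∈ S, sg (e x))
      rwa [mul_zero] at this
  have h2 := (tendsto_finsetSum _ hlim).const_mul ((1 : ℝ) / 2 ^ I.card)
  have h3 : ∑ S ∈ I.powerset, (if S = ∅ then (1 : ℝ) else 0) = 1 := by
    rw [Finset.sum_ite_eq' I.powerset ∅ (fun _ => (1 : ℝ)), if_pos (Finset.empty_mem_powerset _)]
  rw [h3, mul_one] at h2
  exact h2.congr fun J => (hcount J).symm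

/-- joint blocks of the odd powers -/
theorem freq_odd (G : PowerSeries (ZMod 2)) (ω : ℕ → Bool) (n : ℕ → ℕ)
    (h : ∀ T : Finset (ℕ × ℕ), Adm T → Tendsto (fun J : ℕ =>
      (∑ j ∈ range J, sn (form G T) (n j) ω) / (J : ℝ)) atTop (𝓝 0))
    (K L : ℕ) (e : ℕ → ℕ → ZMod 2) :
    Tendsto (fun J : ℕ => (((range J).filter fun j => ∀ t < K, ∀ i < L,
      rs G (2 * t + 1) ω (n j + i) = e t i).card : ℝ) / J) atTop (𝓝 (1 / 2 ^ (K * L))) := by
  classical
  have h1 := freq ((range K) ×ˢ (range L))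
    (fun x j => rs G (2 * x.1 + 1) ω (n j + x.2)) ?_ (fun x => e x.1 x.2)
  · rw [Finset.card_product, Finset.card_range, Finset.card_range] at h1
    refine h1.congr fun J => ?_
    congr 3
    refine Finset.filter_congr fun j _ => ?_
    constructor
    · intro h2 t ht i hi
      exact h2 (t, i) (Finset.mem_product.2 ⟨Finset.mem_range.2 ht, Finset.mem_range.2 hi⟩)
    · intro h2 x hx
      obtain ⟨h3, h4⟩ := Finset.mem_product.1 hx
      exact h2 _ (Finset.mem_range.1 h3) _ (Finset.mem_range.1 h4)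
  · intro S _ hS
    have h2 := h (S.image fun x => (2 * x.1 + 1, x.2)) ⟨hS.image _, fun x hx => by
      obtain ⟨y, _, rfl⟩ := Finset.mem_image.1 hx
      exact ⟨y.1, rfl⟩⟩
    refine h2.congr fun J => ?_
    congr 1
    refine Finset.sum_congr rfl fun j _ => ?_
    unfold sn form
    rw [Finset.sum_image]
    intro x _ y _ hxy
    simp only [Prod.mk.injEq] at hxy
    exact Prod.ext (by omega) hxy.2

/-- few changes -/
theorem few_changes (G : PowerSeries (ZMod 2)) (hG : PowerSeries.constantCoeff G = 1) (η : ℝ)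
    (hη : 0 < η) : ∃ ω : ℕ → Bool, (∀ᶠ N : ℕ in atTop, (NS.cnt ω N : ℝ) ≤ (N : ℝ) ^ η) ∧
      ∀ q a : ℕ, 1 ≤ q → ∀ T : Finset (ℕ × ℕ), Adm T → Tendsto (fun J : ℕ =>
        (∑ j ∈ range J, sn (form G T) (q * j + a) ω) / (J : ℝ)) atTop (𝓝 0) := by
  set m : ℝ := min η 1 with hm
  have hm0 : 0 < m := lt_min hη one_pos
  have hm1 : m ≤ 1 := min_le_right _ _
  have hmη : m ≤ η := min_le_left _ _
  set θ : ℝ := 1 - m / 2 with hθ
  have hθ0 : 0 < θ := by rw [hθ]; linarith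
  have hθ1 : θ < 1 := by rw [hθ]; linarith
  have hle : ∀ k : ℕ, (k : ℝ) ^ (-θ) ≤ 1 := by
    intro k
    rcases Nat.eq_zero_or_pos k with hk | hk
    · rw [hk, Nat.cast_zero, Real.zero_rpow (by linarith)]
      norm_num
    · exact Real.rpow_le_one_of_one_le_of_nonpos (by exact_mod_cast hk) (by linarith)
  have hnn : ∀ k : ℕ, 0 ≤ (k : ℝ) ^ (-θ) := fun k => by positivity
  have hbits := NS.bits_exist (fun k => 1 / 2 * (k : ℝ) ^ (-θ)) (fun k => by
      have := hnn k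
      positivity) (fun k => by
      have := hle k
      linarith)
  have hrate : Rate (1 / 2) θ (fun k => 1 / 2 * (k : ℝ) ^ (-θ)) := fun k _ => by
    have := hle k
    constructor
    · exact le_rfl
    · linarith
  have h1 := hbits.ae_few hθ1 η (by rw [hθ]; linarith)
  have h2 : ∀ᵐ ω ∂(Measure.infinitePi fun k : ℕ => NS.bit (1 / 2 * (k : ℝ) ^ (-θ))),
      ∀ q a : ℕ, 1 ≤ q → ∀ T : Finset (ℕ × ℕ), Adm T → Tendsto (fun J : ℕ =>
        (∑ j ∈ range J, sn (form G T) (q * j + a) (path (fun k (ω : ℕ → Bool) => ω k) ω)) /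
          (J : ℝ)) atTop (𝓝 0) := by
    rw [ae_all_iff]
    intro q
    rw [ae_all_iff]
    intro a
    by_cases hq : 1 ≤ q
    · filter_upwards [ae_forms hbits hG (by norm_num) hθ0 hθ1 hrate _ (NS.slow_ap hθ1 q a hq)]
        with ω hω
      exact fun _ => hω
    · exact Eventually.of_forall fun ω h => absurd h hq
  obtain ⟨ω, h3, h4⟩ := (h1.and h2).exists
  exact ⟨ω, h3, h4⟩

/-- the number of `t`-multipartitions of `n` -/
def mp (t n : ℕ) : ℕ :=
  ∑ x ∈ Finset.Nat.antidiagonalTuple t n, ∏ i, Fintype.card (Nat.Partition (x i))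

theorem sum_antidiagonalTuple_succ (c : ℕ → ℕ) (t n : ℕ) :
    ∑ x ∈ Finset.Nat.antidiagonalTuple (t + 1) n, ∏ i, c (x i) =
      ∑ ab ∈ Finset.HasAntidiagonal.antidiagonal n, c ab.1 *
        ∑ y ∈ Finset.Nat.antidiagonalTuple t ab.2, ∏ i, c (y i) := by
  simp_rw [Finset.mul_sum]
  rw [Finset.sum_sigma']
  symm
  refine Finset.sum_bij' (fun p _ => (Fin.cons p.1.1 p.2 : Fin (t + 1) → ℕ))
    (fun x _ => ⟨(x 0, ∑ i, Fin.tail x i), Fin.tail x⟩) ?_ ?_ ?_ ?_ ?_
  · rintro ⟨⟨a, b⟩, y⟩ h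
    rw [Finset.mem_sigma, Finset.HasAntidiagonal.mem_antidiagonal,
      Finset.Nat.mem_antidiagonalTuple] at h
    simp only at h
    rw [Finset.Nat.mem_antidiagonalTuple, Fin.sum_univ_succ]
    simp only [Fin.cons_zero, Fin.cons_succ]
    rw [h.2, h.1]
  · intro x h
    rw [Finset.Nat.mem_antidiagonalTuple, Fin.sum_univ_succ] at h
    rw [Finset.mem_sigma, Finset.HasAntidiagonal.mem_antidiagonal,
      Finset.Nat.mem_antidiagonalTuple]
    exact ⟨h, rfl⟩
  · rintro ⟨⟨a, b⟩, y⟩ h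
    rw [Finset.mem_sigma, Finset.HasAntidiagonal.mem_antidiagonal,
      Finset.Nat.mem_antidiagonalTuple] at h
    simp only at h
    obtain ⟨h1, h2⟩ := h
    subst h2
    simp
  · intro x h
    simp
  · rintro ⟨⟨a, b⟩, y⟩ h
    simp [Fin.prod_univ_succ]

theorem coeff_pow_eq (t n : ℕ) : PowerSeries.coeff n
    ((PowerSeries.mk fun n => (Fintype.card (Nat.Partition n) : ZMod 2)) ^ t) =
      (mp t n : ZMod 2) := by
  induction t generalizing n with
  | zero =>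
    rw [pow_zero, PowerSeries.coeff_one]
    rcases n with _ | n
    · simp [mp]
    · simp [mp]
  | succ t ih =>
    have h1 : mp (t + 1) n = ∑ ab ∈ Finset.HasAntidiagonal.antidiagonal n,
        Fintype.card (Nat.Partition ab.1) * mp t ab.2 :=
      sum_antidiagonalTuple_succ (fun n => Fintype.card (Nat.Partition n)) t n
    rw [pow_succ', PowerSeries.coeff_mul, h1]
    push_cast
    refine Finset.sum_congr rfl fun ab _ => ?_
    rw [ih, PowerSeries.coeff_mk]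

end Pool.Agent.Q167.NT
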